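import Pool.Agent.W2helper36.KT.Cone
import Pool.Agent.TH426.Kt.Trans
import Pool.Agent.Y244.HM.Pipe

set_option autoImplicit false

/-!
From the Kakeya maximal function on the sphere to the windows of an arbitrary family of lines.
-/

open MeasureTheory Set ENNReal NNReal Metric Filter

namespace Pool.Agent.W2helper36.KT

open Pool.Agent.H803R2.Kak Pool.Agent.H803R2.KakFTO Pool.Agent.TH426.Kt
open Pool.Agent.W46.HM (kmax)
open Pool.Agent.Y244.HM (StrongP)

variable {d : ℕ}

theorem norm_dir (v : Vec d) : ‖(dir v : Space d)‖ = 1 := by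
  have h1 := dir_of_pos v one_pos
  rw [inv_one, one_smul] at h1
  rw [← h1, norm_smul, norm_inv, norm_norm]
  apply inv_mul_cancel₀
  intro h
  have h2 := norm_space v 1
  rw [h] at h2
  nlinarith [norm_nonneg v]

/-- Tubes under the isometry. -/
theorem preimage_tube (δ : ℝ) (e a : Space d) :
    iso d ⁻¹' (Pool.Agent.W46.KK.tube δ (iso d a) (iso d e)) = tube δ e a := by
  ext y
  simp only [Pool.Agent.W46.KK.tube, tube, mem_preimage, mem_setOf_eq]
  rw [← map_sub, (iso d).inner_map_map, ← map_smul, ← map_sub, (iso d).norm_map]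

/-- The averages over the windows are bounded by the Kakeya maximal function. -/
theorem W_le_kmax {δ : ℝ} (hδ : 0 < δ) (hδ1 : δ < 1) (b : Vec d → Vec d) {v : Vec d}
    (hv : ‖v‖ ≤ 1) {J : Set ℝ} {s : ℝ} (hJ : J ⊆ Icc (s - 1/8) (s + 1/8))
    {F : EE d → ℝ≥0∞} (hF : Measurable F) :
    W (δ / 4) J (lin b) (fun p => F (iso d (WithLp.toLp 2 p))) v ≤
      (3 * 8 ^ d) * kmax δ F (iso d (dir v)) := by
  have hmp := WithLp.volume_preserving_toLp (Vec d) ℝ
  have hme : MeasurableEmbedding (WithLp.toLp 2 : (Vec d) × ℝ → Space d) :=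
    (MeasurableEquiv.toLp 2 ((Vec d) × ℝ)).measurableEmbedding
  have hfm : Measurable (fun p : Vec d × ℝ => F (iso d (WithLp.toLp 2 p))) :=
    hF.comp ((iso d).continuous.measurable.comp hmp.measurable)
  set Tb := tube δ (dir v) (linePt b v s) with hTb
  set V := volume (closedBall (0:(Vec d)) (δ/4)) with hV
  have hV0 : V ≠ 0 := (vol_pos (d := d) (r := δ / 4) (by linarith)).ne'
  have hVt : V ≠ ∞ := (vol_lt_top (d := d) (r := δ / 4)).ne
  have h1 : V * W (δ / 4) J (lin b) (fun p => F (iso d (WithLp.toLp 2 p))) v ≤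
      ∫⁻ y in Tb, F (iso d y) := by
    calc V * W (δ / 4) J (lin b) (fun p => F (iso d (WithLp.toLp 2 p))) v
        ≤ V * W (δ / 4) (Icc (s - 1/8) (s + 1/8)) (lin b) (fun p => F (iso d (WithLp.toLp 2 p))) v := by
          unfold W
          gcongr
      _ = ∫⁻ t in Icc (s - 1/8) (s + 1/8), ∫⁻ w in closedBall (0 : Vec d) (δ / 4),
            F (iso d (WithLp.toLp 2 (b v + t • v + w, t))) := by
          unfold W
          rw [← lintegral_const_mul' _ _ hVt]
          apply lintegral_congr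
          intro t
          rw [lintegral_nb, ← mul_assoc, ENNReal.mul_inv_cancel hV0 hVt, one_mul]
          rfl
      _ = ∫⁻ p in {p : (Vec d) × ℝ | p.2 ∈ Icc (s - 1/8) (s + 1/8) ∧ ‖p.1 - (b v + p.2 • v)‖ ≤ δ/4},
            F (iso d (WithLp.toLp 2 p)) :=
          (lintegral_box hfm (fun t => b v + t • v) (measurable_line b v) _ measurableSet_Icc _).symm
      _ ≤ ∫⁻ p in WithLp.toLp 2 ⁻¹' Tb, F (iso d (WithLp.toLp 2 p)) := by
          apply lintegral_mono_set
          rintro ⟨z, t⟩ ⟨ht, hz⟩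
          exact subset_tube hδ hδ1 b hv s ht hz
      _ = ∫⁻ y in Tb, F (iso d y) :=
          hmp.setLIntegral_comp_preimage_emb hme (fun y => F (iso d y)) Tb
  have h2 : volume Tb ≤ 3 * 8 ^ d * V := by
    refine (vol_tube_le hδ hδ1 b hv s).trans (le_of_eq ?_)
    rw [ball_8 hδ, mul_assoc]
  have hie : MeasurableEmbedding (iso d) := (iso d).toHomeomorph.measurableEmbedding
  have h3 : (volume Tb)⁻¹ * ∫⁻ y in Tb, F (iso d y) ≤ kmax δ F (iso d (dir v)) := by
    have e1 : ∫⁻ y in Tb, F (iso d y) =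
        ∫⁻ x in Pool.Agent.W46.KK.tube δ (iso d (linePt b v s)) (iso d (dir v)), F x := by
      rw [hTb, ← preimage_tube]
      exact (mp_iso d).setLIntegral_comp_preimage_emb hie F _
    have e2 : volume Tb =
        volume (Pool.Agent.W46.KK.tube δ (iso d (linePt b v s)) (iso d (dir v))) := by
      rw [hTb, ← preimage_tube]
      exact (mp_iso d).measure_preimage_emb hie _
    rw [e1, e2]
    unfold kmax
    exact le_iSup (fun a : EE d => (volume (Pool.Agent.W46.KK.tube δ a (iso d (dir v))))⁻¹ *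
      ∫⁻ y in Pool.Agent.W46.KK.tube δ a (iso d (dir v)), F y) (iso d (linePt b v s))
  have hK0 : (3 * 8 ^ d : ℝ≥0∞) ≠ 0 := by
    apply mul_ne_zero (by norm_num) (pow_ne_zero _ (by norm_num))
  have hKt : (3 * 8 ^ d : ℝ≥0∞) ≠ ∞ := ENNReal.mul_ne_top (by simp) (ENNReal.pow_ne_top (by simp))
  calc W (δ / 4) J (lin b) (fun p => F (iso d (WithLp.toLp 2 p))) v
      = (3 * 8 ^ d) * ((3 * 8 ^ d * V)⁻¹ *
          (V * W (δ / 4) J (lin b) (fun p => F (iso d (WithLp.toLp 2 p))) v)) := by
        rw [ENNReal.mul_inv (Or.inl hK0) (Or.inl hKt)]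
        calc _ = ((3 * 8 ^ d) * (3 * 8 ^ d)⁻¹) * ((V⁻¹ * V) *
              W (δ / 4) J (lin b) (fun p => F (iso d (WithLp.toLp 2 p))) v) := by
              rw [ENNReal.mul_inv_cancel hK0 hKt, ENNReal.inv_mul_cancel hV0 hVt, one_mul, one_mul]
          _ = _ := by ring
    _ ≤ (3 * 8 ^ d) * ((volume Tb)⁻¹ * ∫⁻ y in Tb, F (iso d y)) := by gcongr
    _ ≤ _ := by gcongr

/-- **Windows of arbitrary measurable families**, from the estimate for the maximal function. -/
theorem wb_arb {c : ℝ} (hd : 1 ≤ d) (hc : 0 < c) (h : StrongP d c) : ∃ C : ℝ, 0 < C ∧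
    ∀ δ : ℝ, 0 < δ → δ < 1 → ∀ (B : Set (Vec d)) (b : Vec d → Vec d), MeasurableSet B →
      B ⊆ closedBall 0 1 → Measurable b → ∀ (J : Set ℝ) (s : ℝ), MeasurableSet J →
        J ⊆ Icc (s - 1/8) (s + 1/8) →
        Wb (δ / 4) J 1 (1 + d / c) (ENNReal.ofReal (C * δ ^ (-((d : ℝ) - d / c)))) B b := by
  obtain ⟨C, hC, h⟩ := h
  have hd0 : (0 : ℝ) < d := by
    have : (1 : ℝ) ≤ d := by exact_mod_cast hd
    linarith
  set p : ℝ := 1 + d / c with hp
  have hp0 : 0 < p := by positivity
  set K : ℝ := (3 * 8 ^ d) ^ p * (3 ^ (d + 1) / (d + 1)) * C with hK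
  refine ⟨K, by positivity, ?_⟩
  intro δ hδ hδ1 B b hB hB1 hb J s hJm hJ g hg
  rw [one_mul, ENNReal.rpow_one]
  -- the function on the Euclidean space
  have hof : Measurable (WithLp.ofLp : Space d → Vec d × ℝ) :=
    (WithLp.volume_preserving_ofLp (Vec d) ℝ).measurable
  set F : EE d → ℝ≥0∞ := fun x => J.indicator (fun _ => (1 : ℝ≥0∞)) (WithLp.ofLp ((iso d).symm x)).2 *
    g (WithLp.ofLp ((iso d).symm x)) with hF
  have hFm : Measurable F := by
    have h1 : Measurable fun x : EE d => WithLp.ofLp ((iso d).symm x) :=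
      hof.comp (iso d).symm.continuous.measurable
    apply Measurable.mul
    · exact (measurable_const.indicator hJm).comp (measurable_snd.comp h1)
    · exact hg.comp h1
  have hFe : ∀ (x : Vec d) (t : ℝ), F (iso d (WithLp.toLp 2 (x, t))) =
      J.indicator (fun _ => g (x, t)) t := by
    intro x t
    by_cases ht : t ∈ J
    · simp [hF, ht]
    · simp [hF, ht]
  have hWF : ∀ v, W (δ / 4) J (lin b) g v =
      W (δ / 4) J (lin b) (fun p => F (iso d (WithLp.toLp 2 p))) v := by
    intro v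
    unfold W
    apply setLIntegral_congr_fun hJm
    intro t ht
    simp only [hFe, indicator_of_mem ht]
  -- the function on the sphere
  set G : Vec d → ℝ≥0∞ := fun v => W (δ / 4) J (lin b) g v with hG
  have hGm : Measurable G := measurable_W1 (δ / 4) J (measurable_lin hb) hg
  set ϕ : EE d → Vec d := fun e => ((WithLp.ofLp ((iso d).symm e)).2)⁻¹ •
    (WithLp.ofLp ((iso d).symm e)).1 with hϕ
  have hϕm : Measurable ϕ := by
    have h1 : Measurable fun x : EE d => WithLp.ofLp ((iso d).symm x) :=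
      hof.comp (iso d).symm.continuous.measurable
    exact (measurable_snd.comp h1).inv.smul (measurable_fst.comp h1)
  have hϕd : ∀ v : Vec d, ϕ (iso d (dir v)) = v := by
    intro v
    have hs : √(1 + ‖v‖ ^ 2) ≠ 0 := (Real.sqrt_pos.2 (by positivity)).ne'
    simp only [hϕ, LinearIsometryEquiv.symm_apply_apply, dir]
    simp only [WithLp.ofLp_smul, Prod.smul_fst, Prod.smul_snd, smul_eq_mul, mul_one, inv_inv,
      smul_smul]
    rw [mul_inv_cancel₀ hs, one_smul]
  -- the set of the directions that matter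
  set S : Set (EE d) := {e | 0 < (WithLp.ofLp ((iso d).symm e)).2 ∧ ϕ e ∈ B} with hS
  have hSm : MeasurableSet S := by
    have h1 : Measurable fun x : EE d => WithLp.ofLp ((iso d).symm x) :=
      hof.comp (iso d).symm.continuous.measurable
    exact (measurableSet_lt measurable_const (measurable_snd.comp h1)).inter (hϕm hB)
  set H : EE d → ℝ≥0∞ := S.indicator (fun e => G (ϕ e) ^ p) with hH
  have hHm : Measurable H := ((hGm.comp hϕm).pow_const _).indicator hSm
  have hdir2 : ∀ v : Vec d, 0 < (WithLp.ofLp ((iso d).symm (iso d (dir v)))).2 := by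
    intro v
    have hs : 0 < √(1 + ‖v‖ ^ 2) := Real.sqrt_pos.2 (by positivity)
    simp only [LinearIsometryEquiv.symm_apply_apply, dir, WithLp.ofLp_smul, Prod.smul_snd,
      smul_eq_mul, mul_one]
    exact inv_pos.2 hs
  have hHd : ∀ v ∈ B, H (iso d (dir v)) = G v ^ p := by
    intro v hv
    have h1 : iso d (dir v) ∈ S := ⟨hdir2 v, by rw [hϕd]; exact hv⟩
    simp only [hH, indicator_of_mem h1, hϕd]
  have hHk : ∀ e : sphere (0 : EE d) 1, H e ≤ (3 * 8 ^ d) ^ p * kmax δ F (e : EE d) ^ p := by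
    intro e
    by_cases he : (e : EE d) ∈ S
    · simp only [hH, indicator_of_mem he]
      obtain ⟨h1, h2⟩ := he
      have h3 : (e : EE d) = iso d (dir (ϕ e)) := by
        have h4 : (iso d).symm (e : EE d) = dir (ϕ e) := by
          have h5 := dir_of_pos (WithLp.ofLp ((iso d).symm (e : EE d))).1 h1
          have h6 : (WithLp.toLp 2 ((WithLp.ofLp ((iso d).symm (e : EE d))).1,
              (WithLp.ofLp ((iso d).symm (e : EE d))).2) : Space d) = (iso d).symm (e : EE d) := rfl
          rw [h6, (iso d).symm.norm_map] at h5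
          have h7 : ‖(e : EE d)‖ = 1 := by simp
          rw [h7, inv_one, one_smul] at h5
          exact h5
        rw [← h4, LinearIsometryEquiv.apply_symm_apply]
      have hv : ‖ϕ e‖ ≤ 1 := by simpa using hB1 h2
      rw [← ENNReal.mul_rpow_of_nonneg _ _ hp0.le]
      apply ENNReal.rpow_le_rpow _ hp0.le
      calc G (ϕ e) = W (δ / 4) J (lin b) (fun p => F (iso d (WithLp.toLp 2 p))) (ϕ e) := hWF _
        _ ≤ (3 * 8 ^ d) * kmax δ F (iso d (dir (ϕ e))) := W_le_kmax hδ hδ1 b hv hJ hFm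
        _ = _ := by rw [← h3]
    · simp only [hH, indicator_of_notMem he]
      exact zero_le
  have hint : ∫⁻ y, F y ^ p = ∫⁻ t in J, ∫⁻ x, g (x, t) ^ p := by
    have e0 : ∫⁻ y, F y ^ p = ∫⁻ z : Space d, F (iso d z) ^ p :=
      ((mp_iso d).lintegral_comp (hFm.pow_const p)).symm
    have hm : Measurable (fun z : Space d => F (iso d z) ^ p) :=
      (hFm.comp (iso d).continuous.measurable).pow_const _
    have hmp := WithLp.volume_preserving_toLp (Vec d) ℝ
    have e1 : ∫⁻ z : Space d, F (iso d z) ^ p =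
        ∫⁻ z : Vec d × ℝ, F (iso d (WithLp.toLp 2 z)) ^ p := (hmp.lintegral_comp hm).symm
    have hm2 : Measurable (fun z : Vec d × ℝ => F (iso d (WithLp.toLp 2 z)) ^ p) :=
      hm.comp hmp.measurable
    rw [e0, e1, Measure.volume_eq_prod, lintegral_prod_symm _ hm2.aemeasurable,
      ← lintegral_indicator hJm]
    apply lintegral_congr
    intro t
    by_cases ht : t ∈ J
    · simp only [hFe, indicator_of_mem ht]
    · simp only [hFe, indicator_of_notMem ht, ENNReal.zero_rpow_of_pos hp0, lintegral_zero]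
  calc ∫⁻ v in B, W (δ / 4) J (lin b) g v ^ p
      = ∫⁻ v in B, H (iso d (dir v)) := by
        apply setLIntegral_congr_fun hB
        intro v hv
        exact (hHd v hv).symm
    _ ≤ ∫⁻ v in closedBall (0 : Vec d) 1, H (iso d (dir v)) := lintegral_mono_set hB1
    _ ≤ ENNReal.ofReal (3 ^ (d + 1) / (d + 1)) *
        ∫⁻ e : sphere (0 : EE d) 1, H e ∂(volume : Measure (EE d)).toSphere := ball_le_sphere d hHm
    _ ≤ ENNReal.ofReal (3 ^ (d + 1) / (d + 1)) *
        ∫⁻ e : sphere (0 : EE d) 1, (3 * 8 ^ d) ^ p * kmax δ F (e : EE d) ^ p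
          ∂(volume : Measure (EE d)).toSphere := by
        gcongr with e
        exact hHk e
    _ = ENNReal.ofReal (3 ^ (d + 1) / (d + 1)) * ((3 * 8 ^ d) ^ p *
        ∫⁻ e : sphere (0 : EE d) 1, kmax δ F (e : EE d) ^ p
          ∂(volume : Measure (EE d)).toSphere) := by
        rw [lintegral_const_mul' _ _ (ENNReal.rpow_ne_top_of_nonneg hp0.le
          (ENNReal.mul_ne_top (by simp) (ENNReal.pow_ne_top (by simp))))]
    _ ≤ ENNReal.ofReal (3 ^ (d + 1) / (d + 1)) * ((3 * 8 ^ d) ^ p *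
        (ENNReal.ofReal (C * δ ^ (-((d : ℝ) - (d : ℝ) / c))) * ∫⁻ y, F y ^ p)) := by
        gcongr
        exact h δ hδ hδ1 F hFm.aemeasurable
    _ = ENNReal.ofReal (K * δ ^ (-((d : ℝ) - d / c))) * ∫⁻ t in J, ∫⁻ x, g (x, t) ^ p := by
        rw [hint]
        have e1 : ((3 * 8 ^ d : ℝ≥0∞)) ^ p = ENNReal.ofReal ((3 * 8 ^ d) ^ p) := by
          rw [← ENNReal.ofReal_rpow_of_nonneg (by positivity) hp0.le]
          congr 1
          rw [ENNReal.ofReal_mul (by norm_num), ENNReal.ofReal_pow (by norm_num)]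
          simp
        rw [e1, hK]
        rw [show (3 * 8 ^ d : ℝ) ^ p * (3 ^ (d + 1) / (d + 1)) * C * δ ^ (-((d : ℝ) - d / c)) =
          (3 ^ (d + 1) / (d + 1)) * ((3 * 8 ^ d : ℝ) ^ p * (C * δ ^ (-((d : ℝ) - d / c)))) by ring]
        rw [ENNReal.ofReal_mul (p := (3 ^ (d + 1) / ((d : ℝ) + 1))) (by positivity),
          ENNReal.ofReal_mul (p := (3 * 8 ^ d : ℝ) ^ p) (by positivity)]
        ring

end Pool.Agent.W2helper36.KT
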