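import Pool.Agent.TH426.Kt.Good

set_option autoImplicit false

/-!
Integrals over the slopes in the unit ball and integrals over the sphere of directions.
-/

open MeasureTheory Set ENNReal NNReal Metric Filter

namespace Pool.Agent.W2helper36.KT

open Pool.Agent.H803R2.KakFTO (Vec Space dir)

/-- Euclidean space `ℝ^{d+1}`. -/
abbrev EE (d : ℕ) : Type := EuclideanSpace ℝ (Fin (d + 1))

theorem finrank_space (d : ℕ) : Module.finrank ℝ (Space d) = d + 1 := by
  rw [(WithLp.linearEquiv 2 ℝ (Vec d × ℝ)).finrank_eq, Module.finrank_prod]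
  simp

/-- An isometry between the two models of `ℝ^{d+1}`. -/
noncomputable def iso (d : ℕ) : Space d ≃ₗᵢ[ℝ] EE d :=
  ((stdOrthonormalBasis ℝ (Space d)).reindex (finCongr (finrank_space d))).repr

theorem mp_iso (d : ℕ) : MeasurePreserving (iso d) volume volume := (iso d).measurePreserving

theorem norm_space {d : ℕ} (y : Vec d) (t : ℝ) :
    ‖(WithLp.toLp 2 (y, t) : Space d)‖ ^ 2 = ‖y‖ ^ 2 + t ^ 2 := by
  rw [WithLp.prod_norm_sq_eq_of_L2]
  simp

theorem dir_of_pos {d : ℕ} (y : Vec d) {t : ℝ} (ht : 0 < t) :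
    (‖(WithLp.toLp 2 (y, t) : Space d)‖)⁻¹ • (WithLp.toLp 2 (y, t) : Space d) =
      dir (t⁻¹ • y) := by
  have h1 : ‖(WithLp.toLp 2 (y, t) : Space d)‖ = t * √(1 + ‖t⁻¹ • y‖ ^ 2) := by
    have h2 : (0:ℝ) ≤ t * √(1 + ‖t⁻¹ • y‖ ^ 2) := by positivity
    have h3 : ‖(WithLp.toLp 2 (y, t) : Space d)‖ ^ 2 = (t * √(1 + ‖t⁻¹ • y‖ ^ 2)) ^ 2 := by
      rw [norm_space, mul_pow, Real.sq_sqrt (by positivity), norm_smul, mul_pow]
      rw [Real.norm_eq_abs, sq_abs]
      field_simp
      ring
    exact (pow_left_inj₀ (norm_nonneg _) h2 two_ne_zero).1 h3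
  rw [h1]
  unfold dir
  rw [mul_inv, mul_comm t⁻¹, mul_smul]
  congr 1
  rw [← WithLp.toLp_smul]
  congr 1
  ext1
  · rfl
  · simp [ht.ne']

/-- Scaling of the ball. -/
theorem scale_ball {d : ℕ} {h : Vec d → ℝ≥0∞} (hh : Measurable h) {s : ℝ} (hs : 0 < s) :
    ∫⁻ y in closedBall (0 : Vec d) s, h (s⁻¹ • y) =
      ENNReal.ofReal (s ^ d) * ∫⁻ v in closedBall (0 : Vec d) 1, h v := by
  set g : Vec d → ℝ≥0∞ := (closedBall (0 : Vec d) 1).indicator h with hg
  have hgm : Measurable g := hh.indicator measurableSet_closedBall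
  have e1 : ∫⁻ y in closedBall (0 : Vec d) s, h (s⁻¹ • y) = ∫⁻ y, g (s⁻¹ • y) := by
    rw [← lintegral_indicator measurableSet_closedBall]
    apply lintegral_congr
    intro y
    by_cases hy : ‖y‖ ≤ s
    · have h1 : y ∈ closedBall (0 : Vec d) s := by simpa using hy
      have h2 : s⁻¹ • y ∈ closedBall (0 : Vec d) 1 := by
        rw [mem_closedBall_zero_iff, norm_smul, norm_inv, Real.norm_eq_abs, abs_of_pos hs,
          inv_mul_le_iff₀ hs, mul_one]
        exact hy
      rw [indicator_of_mem h1, hg, indicator_of_mem h2]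
    · have h1 : y ∉ closedBall (0 : Vec d) s := by simpa using hy
      have h2 : s⁻¹ • y ∉ closedBall (0 : Vec d) 1 := by
        rw [mem_closedBall_zero_iff, norm_smul, norm_inv, Real.norm_eq_abs, abs_of_pos hs,
          inv_mul_le_iff₀ hs, mul_one]
        exact hy
      rw [indicator_of_notMem h1, hg, indicator_of_notMem h2]
  have e2 : ∫⁻ y, g (s⁻¹ • y) = ∫⁻ y, g y ∂(Measure.map (s⁻¹ • ·) (volume : Measure (Vec d))) :=
    (lintegral_map hgm (measurable_const_smul _)).symm
  rw [e1, e2, Measure.map_addHaar_smul _ (inv_ne_zero hs.ne'), lintegral_smul_measure, hg,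
    lintegral_indicator measurableSet_closedBall]
  simp only [finrank_euclideanSpace, Fintype.card_fin, inv_pow, inv_inv]
  rw [abs_of_pos (by positivity)]
  rfl

/-- **Slopes in the unit ball and directions.** -/
theorem ball_le_sphere (d : ℕ) {H : EE d → ℝ≥0∞} (hH : Measurable H) :
    ∫⁻ v in closedBall (0 : Vec d) 1, H (iso d (dir v)) ≤
      ENNReal.ofReal (3 ^ (d + 1) / (d + 1)) *
        ∫⁻ e : sphere (0 : EE d) 1, H e ∂(volume : Measure (EE d)).toSphere := by
  set μ : Measure (EE d) := volume with hμ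
  -- polar coordinates
  have hpol : ∫⁻ x in ball (0 : EE d) 3, H (‖x‖⁻¹ • x) =
      ENNReal.ofReal (3 ^ (d + 1) / (d + 1)) * ∫⁻ e : sphere (0 : EE d) 1, H e ∂μ.toSphere := by
    set F : sphere (0 : EE d) 1 × Ioi (0 : ℝ) → ℝ≥0∞ :=
      fun p => H p.1 * (Iio (⟨3, mem_Ioi.2 (by norm_num)⟩ : Ioi (0 : ℝ))).indicator 1 p.2 with hF
    have hFm : Measurable F := by
      refine Measurable.mul (hH.comp (measurable_subtype_coe.comp measurable_fst)) ?_
      exact (measurable_one.indicator measurableSet_Iio).comp measurable_snd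
    have hdim : Module.finrank ℝ (EE d) - 1 = d := by simp
    have h1 : ∫⁻ p, F p ∂(μ.toSphere.prod (Measure.volumeIoiPow d)) =
        (∫⁻ e : sphere (0 : EE d) 1, H e ∂μ.toSphere) * ENNReal.ofReal (3 ^ (d + 1) / (d + 1)) := by
      rw [lintegral_prod _ hFm.aemeasurable]
      have : ∀ x : sphere (0 : EE d) 1, ∫⁻ y, F (x, y) ∂(Measure.volumeIoiPow d) =
          H x * ENNReal.ofReal (3 ^ (d + 1) / (d + 1)) := by
        intro x
        simp only [hF]
        rw [lintegral_const_mul _ (measurable_one.indicator measurableSet_Iio),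
          lintegral_indicator_one measurableSet_Iio, Measure.volumeIoiPow_apply_Iio]
      simp_rw [this]
      exact lintegral_mul_const _ (hH.comp measurable_subtype_coe)
    have h2 : ∫⁻ x : ({0}ᶜ : Set (EE d)), F (homeomorphUnitSphereProd (EE d) x)
          ∂(μ.comap (↑)) = ∫⁻ p, F p ∂(μ.toSphere.prod (Measure.volumeIoiPow d)) := by
      have := μ.measurePreserving_homeomorphUnitSphereProd.lintegral_comp_emb
        (Homeomorph.measurableEmbedding _) F
      rw [hdim] at this
      exact this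
    have hpt : ∀ x : ({0}ᶜ : Set (EE d)), F (homeomorphUnitSphereProd (EE d) x) =
        (ball (0 : EE d) 3).indicator (fun x => H (‖x‖⁻¹ • x)) (x : EE d) := by
      intro x
      simp only [hF]
      by_cases hx : ‖(x : EE d)‖ < 3
      · have h' : (x : EE d) ∈ ball (0 : EE d) 3 := by simpa using hx
        have h'' : (homeomorphUnitSphereProd (EE d) x).2 ∈
            Iio (⟨3, mem_Ioi.2 (by norm_num)⟩ : Ioi (0 : ℝ)) := by
          rw [mem_Iio, ← Subtype.coe_lt_coe]
          simpa using hx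
        rw [indicator_of_mem h', indicator_of_mem h'']
        simp
      · have h' : (x : EE d) ∉ ball (0 : EE d) 3 := by simpa using hx
        have h'' : (homeomorphUnitSphereProd (EE d) x).2 ∉
            Iio (⟨3, mem_Ioi.2 (by norm_num)⟩ : Ioi (0 : ℝ)) := by
          rw [mem_Iio, ← Subtype.coe_lt_coe]
          simpa using hx
        rw [indicator_of_notMem h', indicator_of_notMem h'', mul_zero]
    simp_rw [hpt] at h2
    rw [lintegral_subtype_comap (measurableSet_singleton (0 : EE d)).compl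
      (fun x => (ball (0 : EE d) 3).indicator (fun x => H (‖x‖⁻¹ • x)) x),
      MeasureTheory.restrict_compl_singleton] at h2
    rw [lintegral_indicator measurableSet_ball] at h2
    rw [h2, h1, mul_comm]
  rw [← hpol]
  set h : Vec d → ℝ≥0∞ := fun v => H (iso d (dir v)) with hh
  have hdirm : Measurable (dir : Vec d → Space d) := by
    unfold dir
    have h1 : Continuous fun v : Vec d => (√(1 + ‖v‖ ^ 2))⁻¹ :=
      Continuous.inv₀ (by fun_prop) (fun v => (Real.sqrt_pos.2 (by positivity)).ne')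
    have h2 : Continuous fun v : Vec d => (WithLp.toLp 2 (v, (1:ℝ)) : Space d) := by fun_prop
    exact (h1.smul h2).measurable
  have hhm : Measurable h := hH.comp ((iso d).continuous.measurable.comp hdirm)
  -- the cone
  set R : Set (Vec d × ℝ) := {p | p.2 ∈ Icc (1:ℝ) 2 ∧ ‖p.1‖ ≤ p.2} with hR
  have hRm : MeasurableSet R := by
    have h1 : MeasurableSet {p : Vec d × ℝ | p.2 ∈ Icc (1:ℝ) 2} := measurable_snd measurableSet_Icc
    have h2 : MeasurableSet {p : Vec d × ℝ | ‖p.1‖ ≤ p.2} :=
      measurableSet_le measurable_fst.norm measurable_snd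
    exact h1.inter h2
  set G : Space d → ℝ≥0∞ := fun x => (ball (0 : EE d) 3).indicator (fun x => H (‖x‖⁻¹ • x))
    (iso d x) with hG
  have hGm0 : Measurable (fun x : EE d => H (‖x‖⁻¹ • x)) := by
    apply hH.comp
    exact (measurable_norm.inv).smul measurable_id
  have hGm : Measurable G := (hGm0.indicator measurableSet_ball).comp (iso d).continuous.measurable
  have e1 : ∫⁻ x in ball (0 : EE d) 3, H (‖x‖⁻¹ • x) = ∫⁻ z : Vec d × ℝ, G (WithLp.toLp 2 z) := by
    rw [← lintegral_indicator measurableSet_ball,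
      ← (mp_iso d).lintegral_comp (hGm0.indicator measurableSet_ball)]
    exact ((WithLp.volume_preserving_toLp (Vec d) ℝ).lintegral_comp hGm).symm
  have e2 : ∀ z : Vec d × ℝ, R.indicator (fun z => h (z.2⁻¹ • z.1)) z ≤ G (WithLp.toLp 2 z) := by
    rintro ⟨y, t⟩
    by_cases hz : ((y, t) : Vec d × ℝ) ∈ R
    · rw [indicator_of_mem hz]
      obtain ⟨⟨h1, h2⟩, h3⟩ := hz
      simp only at h1 h2 h3
      have h4 : iso d (WithLp.toLp 2 (y, t)) ∈ ball (0 : EE d) 3 := by
        rw [mem_ball_zero_iff, (iso d).norm_map]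
        have h5 := norm_space y t
        have h6 : ‖y‖ ^ 2 ≤ 4 := by nlinarith [norm_nonneg y]
        by_contra hcon
        push Not at hcon
        nlinarith
      simp only [hG]
      rw [indicator_of_mem h4, (iso d).norm_map, ← (iso d).map_smul, dir_of_pos y (by linarith)]
    · rw [indicator_of_notMem hz]
      exact zero_le
  have hRi : Measurable (fun z : Vec d × ℝ => R.indicator (fun z => h (z.2⁻¹ • z.1)) z) := by
    apply Measurable.indicator _ hRm
    exact hhm.comp ((measurable_snd.inv).smul measurable_fst)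
  rw [e1]
  refine le_trans ?_ (lintegral_mono e2)
  rw [Measure.volume_eq_prod, lintegral_prod_symm _ hRi.aemeasurable]
  have e3 : ∀ t ∈ Icc (1:ℝ) 2, ∫⁻ v in closedBall (0 : Vec d) 1, h v ≤
      ∫⁻ x : Vec d, R.indicator (fun z => h (z.2⁻¹ • z.1)) (x, t) := by
    intro t ht
    have ht0 : 0 < t := by linarith [ht.1]
    have e4 : ∫⁻ x : Vec d, R.indicator (fun z => h (z.2⁻¹ • z.1)) (x, t) =
        ∫⁻ y in closedBall (0 : Vec d) t, h (t⁻¹ • y) := by
      rw [← lintegral_indicator measurableSet_closedBall]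
      apply lintegral_congr
      intro x
      by_cases hx : ‖x‖ ≤ t
      · have h1 : x ∈ closedBall (0 : Vec d) t := by simpa using hx
        have h2 : ((x, t) : Vec d × ℝ) ∈ R := ⟨ht, hx⟩
        rw [indicator_of_mem h1, indicator_of_mem h2]
      · have h1 : x ∉ closedBall (0 : Vec d) t := by simpa using hx
        have h2 : ((x, t) : Vec d × ℝ) ∉ R := fun h => hx h.2
        rw [indicator_of_notMem h1, indicator_of_notMem h2]
    rw [e4, scale_ball hhm ht0]
    have h1 : (1 : ℝ≥0∞) ≤ ENNReal.ofReal (t ^ d) := by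
      rw [ENNReal.one_le_ofReal]
      exact one_le_pow₀ ht.1
    calc ∫⁻ v in closedBall (0 : Vec d) 1, h v = 1 * ∫⁻ v in closedBall (0 : Vec d) 1, h v := by
          rw [one_mul]
      _ ≤ _ := by gcongr
  calc ∫⁻ v in closedBall (0 : Vec d) 1, h v
      = ∫⁻ _t in Icc (1:ℝ) 2, ∫⁻ v in closedBall (0 : Vec d) 1, h v := by
        rw [setLIntegral_const, Real.volume_Icc]
        norm_num
    _ ≤ ∫⁻ t in Icc (1:ℝ) 2, ∫⁻ x : Vec d, R.indicator (fun z => h (z.2⁻¹ • z.1)) (x, t) :=
        setLIntegral_mono' measurableSet_Icc e3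
    _ ≤ _ := setLIntegral_le_lintegral _ _

end Pool.Agent.W2helper36.KT
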