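import Pool.Agent.W2helper36.KT.Arb
import Pool.Agent.TH426.Kt.Main
import Pool.Agent.Y244.WR.Max
import Pool.Agent.Y254.HK.FinalG

set_option autoImplicit false

/-!
Towers of families of lines with subcritical exponents, and arbitrary families as stages.
-/

open MeasureTheory Set ENNReal NNReal Metric Filter

namespace Pool.Agent.W2helper36.KT

open Pool.Agent.H803R2.Kak Pool.Agent.H803R2.KakFTO Pool.Agent.H805R3.Kk Pool.Agent.TH426.Kt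
open Pool.Agent.Y244.HM (StrongP)

variable {d : ℕ}

/-- Towers: from the windows to the maximal function, with subcritical exponents. -/
theorem tower_lmb_mu {𝓑 : (d : ℕ) → ℝ → ℝ≥0 → Set (Vec d) → (Vec d → Vec d) → Prop}
    (h𝓑 : RegBase 𝓑) {δ : ℝ} (hδ : 0 < δ) (hδ1 : δ < 1) {T : Set ℝ} (hT : MeasurableSet T)
    {c0 : ℕ → ℝ≥0∞} (hc0 : ∀ n, c0 n ≠ ∞) {Λ μ : ℝ≥0∞} (hΛ : Λ ≠ 0) (hΛt : Λ ≠ ∞)
    (hμ : μ ≠ 0) (hμt : μ ≠ ∞)
    (hb : ∀ k : ℤ, BaseBd 𝓑 (3 * δ) (win T k) 1 c0 Λ μ) {d : ℕ} {p : ℝ} {N : ℝ≥0}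
    {B : Set (Vec d)} {b b' : Vec d → Vec d} (h : KTower 𝓑 d p N B b)
    (hbb : ∀ v ∈ B, ‖b' v - b v‖ ≤ δ) :
    LMb δ T 1 p (cb d ^ ((d : ℝ) + 1) * cc c0 (KK 1) d * N * Λ ^ d * μ ^ ((d : ℝ) + 1 - p)) B b' := by
  rcases B.eq_empty_or_nonempty with hne | hne
  · rw [hne]
    intro f _ _
    simp
  obtain ⟨hp1, hp2⟩ := h.expo h𝓑 hne
  obtain ⟨hB, hB1, hbm⟩ := h.meas h𝓑
  have hw : ∀ k : ℤ, Wb (3 * δ) (win T k) 1 p
      (cc c0 (KK 1) d * N * Λ ^ d * μ ^ ((d : ℝ) + 1 - p)) B b := by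
    intro k
    exact h.bound h𝓑 (r := 3 * δ) (by linarith) (J := win T k) one_pos hΛ hΛt hμ hμt hc0 (hb k)
  have key := LMb_of_Wb hδ hδ1 hT le_rfl (by linarith) hB hB1 hbm hbb hw
  intro f hf hfT
  refine (key f hf hfT).trans (mul_le_mul_left ?_ _)
  have h1 : cb d ^ ((1 : ℝ) * p) ≤ cb d ^ ((d : ℝ) + 1) := by
    apply ENNReal.rpow_le_rpow_of_exponent_le
    · unfold cb
      have h2 : (1 : ℝ≥0∞) ≤ 16 ^ d := one_le_pow₀ (by norm_num)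
      calc (1 : ℝ≥0∞) = 1 * 1 := by norm_num
        _ ≤ 52 * 16 ^ d := by
            gcongr
            norm_num
    · linarith
  calc cb d ^ ((1 : ℝ) * p) * (cc c0 (KK 1) d * N * Λ ^ d * μ ^ ((d : ℝ) + 1 - p))
      ≤ cb d ^ ((d : ℝ) + 1) * (cc c0 (KK 1) d * N * Λ ^ d * μ ^ ((d : ℝ) + 1 - p)) := by gcongr
    _ = _ := by ring

/-- The stages of all the known classes have the critical exponent. -/
theorem allB_expo {T : Set ℝ} {A : ℕ → ℝ} {p : ℝ} {N : ℝ≥0} {B : Set (Vec d)}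
    {b : Vec d → Vec d} (h : AllB T A d p N B b) : p = d + 1 := by
  cases h with
  | rough h =>
    cases h with
    | planar _ _ _ => norm_num
    | overlap _ _ _ _ _ _ _ => rfl
    | monotone _ _ _ _ _ => rfl
  | smooth _ _ _ _ _ => rfl

/-- The exponents `q d` for which the estimate is known for all families of lines of `ℝ^{d+1}`. -/
def Admissible (q : ℕ → ℝ) : Prop :=
  ∀ d : ℕ, 2 ≤ d → 1 < q d ∧ (q d < ((d : ℝ) + 3) / 2 ∨ (9 ≤ d ∧ q d < 1 + 25 / 42 * (d : ℝ)))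

theorem strong_of_admissible {q : ℕ → ℝ} (hq : Admissible q) {d : ℕ} (hd : 2 ≤ d) :
    0 < (d : ℝ) / (q d - 1) ∧ StrongP d ((d : ℝ) / (q d - 1)) := by
  obtain ⟨h1, h2⟩ := hq d hd
  have hd2 : (2 : ℝ) ≤ d := by exact_mod_cast hd
  have h0 : 0 < q d - 1 := by linarith
  refine ⟨by positivity, ?_⟩
  rcases h2 with h2 | ⟨h9, h2⟩
  · refine (Pool.Agent.Y244.WR.wolff_max hd ?_).2
    rw [div_lt_div_iff₀ (by linarith) h0]
    nlinarith
  · have hd9 : (9 : ℝ) ≤ d := by exact_mod_cast h9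
    have hc : 42 / 25 < (d : ℝ) / (q d - 1) := by
      rw [div_lt_div_iff₀ (by norm_num) h0]
      nlinarith
    set c := (d : ℝ) / (q d - 1) with hcd
    refine (Pool.Agent.Y254HK.max_mix h9 (x := 0) ⟨le_rfl, zero_le_one, by linarith, ?_, ?_⟩).2
    · have h3 : 0 < c ^ 3 - 4 * c + 2 := by
        nlinarith [mul_pos (show 0 < c - 42 / 25 by linarith) (show 0 < c - 42 / 25 by linarith),
          mul_pos (mul_pos (show 0 < c - 42 / 25 by linarith)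
            (show 0 < c - 42 / 25 by linarith)) (show 0 < c - 42 / 25 by linarith)]
      rw [zero_mul, add_zero]
      positivity
    · rw [zero_mul, zero_mul, add_zero, add_zero]
      have h4 : 0 < c ^ 2 - 1 := by nlinarith
      nlinarith

/-- The Kakeya maximal estimate with the exponent `p` and the sharp loss `δ^(-(d+1-p))`, up to
`δ^(-ε)`, for the functions living at heights in `T`. -/
def MaxEst (T : Set ℝ) (p : ℝ) (C : ℝ → ℝ≥0∞) (B : Set (Vec d)) (b : Vec d → Vec d) : Prop :=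
  ∀ ε : ℝ, 0 < ε → ∀ δ : ℝ, 0 < δ → δ < 1 → ∀ f : Space d → ℝ, Measurable f → VanOff T f →
    ∫⁻ v in B, lineMax δ b f v ^ p
      ≤ C ε * ENNReal.ofReal (δ ^ (-((d : ℝ) + 1 - p) - ε)) * ∫⁻ y, ‖f y‖ₑ ^ p

/-- All the stages. -/
def GenB (T : Set ℝ) (A q : ℕ → ℝ) (c : ℝ → ℕ → ℝ≥0) (d : ℕ) (p : ℝ) (M : ℝ≥0)
    (B : Set (Vec d)) (b : Vec d → Vec d) : Prop :=
  AllB T A d p M B b ∨
  (p = q d ∧ 2 ≤ d ∧ M = 1 ∧ MeasurableSet B ∧ B ⊆ closedBall 0 1 ∧ Measurable b) ∨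
  (1 ≤ p ∧ p ≤ d + 1 ∧ 1 ≤ d ∧ MeasurableSet B ∧ B ⊆ closedBall 0 1 ∧
    Measurable b ∧ MaxEst T p (fun ε => c ε d * M) B b)

theorem genB_reg (T : Set ℝ) (A : ℕ → ℝ) {q : ℕ → ℝ} (hq : Admissible q) (c : ℝ → ℕ → ℝ≥0) :
    RegBase (GenB T A q c) := by
  constructor
  · intro d p N B b h
    rcases h with h | h | h
    · exact (allB_reg T A).meas h
    · exact ⟨h.2.2.2.1, h.2.2.2.2.1, h.2.2.2.2.2⟩
    · exact ⟨h.2.2.2.1, h.2.2.2.2.1, h.2.2.2.2.2.1⟩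
  · intro d p N B b h
    rcases h with h | h | h
    · exact (allB_reg T A).expo h
    · obtain ⟨rfl, hd, _⟩ := h
      obtain ⟨h1, h2⟩ := hq d hd
      have hd2 : (2 : ℝ) ≤ d := by exact_mod_cast hd
      refine ⟨h1.le, ?_⟩
      rcases h2 with h2 | ⟨_, h2⟩ <;> linarith
    · exact ⟨h.1, h.2.1⟩

/-- The power `δ^(-1)`. -/
noncomputable def mu (δ : ℝ) : ℝ≥0∞ := ENNReal.ofReal (δ ^ (-(1:ℝ)))

theorem mu_ne_top (δ : ℝ) : mu δ ≠ ∞ := ENNReal.ofReal_ne_top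

theorem one_le_mu {δ : ℝ} (hδ : 0 < δ) (hδ1 : δ < 1) : 1 ≤ mu δ := by
  unfold mu
  rw [ENNReal.one_le_ofReal]
  exact Real.one_le_rpow_of_pos_of_le_one_of_nonpos hδ hδ1.le (by norm_num)

theorem mu_rpow {δ : ℝ} (hδ : 0 < δ) {s : ℝ} (hs : 0 ≤ s) :
    mu δ ^ s = ENNReal.ofReal (δ ^ (-s)) := by
  unfold mu
  rw [ENNReal.ofReal_rpow_of_nonneg (by positivity) hs, ← Real.rpow_mul hδ.le]
  congr 2
  ring

theorem genB_bd (A : ℕ → ℝ) {q : ℕ → ℝ} (hq : Admissible q) (c : ℝ → ℕ → ℝ≥0) (ε : ℝ)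
    (hε : 0 < ε) :
    ∃ c' : ℕ → ℝ≥0∞, (∀ d, c' d ≠ ∞) ∧ ∀ (T : Set ℝ) (δ : ℝ) (k : ℤ), MeasurableSet T →
      0 < δ → δ < 1 → BaseBd (GenB T A q c) (3 * δ) (win T k) 1 c' (Pw ε δ) (mu δ) := by
  obtain ⟨c2, hc2, hbd⟩ := allB_bd A ε hε
  set c1 : ℕ → ℝ≥0∞ := fun d => (2 ^ d) ^ ((d : ℝ) + 1) * ((3 * 8 ^ d) ^ ((d : ℝ) + 1) *
    (c ε d : ℝ≥0∞)) with hc1
  have hc1t : ∀ d, c1 d ≠ ∞ := by
    intro d
    have h0 : (0 : ℝ) ≤ (d : ℝ) + 1 := by positivity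
    apply ENNReal.mul_ne_top
    · exact ENNReal.rpow_ne_top_of_nonneg h0 (ENNReal.pow_ne_top (by simp))
    · apply ENNReal.mul_ne_top _ ENNReal.coe_ne_top
      exact ENNReal.rpow_ne_top_of_nonneg h0
        (ENNReal.mul_ne_top (by simp) (ENNReal.pow_ne_top (by simp)))
  have hex : ∀ d : ℕ, ∃ K : ℝ, 2 ≤ d → 0 < K ∧
      ∀ δ : ℝ, 0 < δ → δ < 1 → ∀ (B : Set (Vec d)) (b : Vec d → Vec d), MeasurableSet B →
      B ⊆ closedBall 0 1 → Measurable b → ∀ (J : Set ℝ) (s : ℝ), MeasurableSet J →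
        J ⊆ Icc (s - 1/8) (s + 1/8) →
        Wb (δ / 4) J 1 (q d) (ENNReal.ofReal (K * δ ^ (-((d : ℝ) + 1 - q d)))) B b := by
    intro d
    by_cases hd : 2 ≤ d
    · obtain ⟨h1, h2⟩ := strong_of_admissible hq hd
      obtain ⟨K, hK, h⟩ := wb_arb (by omega) h1 h2
      refine ⟨K, fun _ => ⟨hK, ?_⟩⟩
      have hd2 : (2 : ℝ) ≤ d := by exact_mod_cast hd
      have e1 : (1 : ℝ) + d / (d / (q d - 1)) = q d := by
        rw [div_div_cancel₀ (by positivity)]; ring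
      have e2 : -((d : ℝ) - d / (d / (q d - 1))) = -((d : ℝ) + 1 - q d) := by
        rw [div_div_cancel₀ (by positivity)]; ring
      rw [e1, e2] at h
      exact h
    · exact ⟨0, fun h => absurd h hd⟩
  choose K hK using hex
  set c3 : ℕ → ℝ≥0∞ := fun d => (2 ^ d) ^ ((d : ℝ) + 1) * ENNReal.ofReal (K d) with hc3
  have hc3t : ∀ d, c3 d ≠ ∞ := by
    intro d
    apply ENNReal.mul_ne_top _ ENNReal.ofReal_ne_top
    exact ENNReal.rpow_ne_top_of_nonneg (by positivity) (ENNReal.pow_ne_top (by simp))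
  refine ⟨fun d => c2 d + c1 d + c3 d, fun d =>
    ENNReal.add_ne_top.2 ⟨ENNReal.add_ne_top.2 ⟨hc2 d, hc1t d⟩, hc3t d⟩, ?_⟩
  intro T δ k hT hδ hδ1 d p M B b hb
  have hmu1 := one_le_mu hδ hδ1
  have hPw1 : 1 ≤ Pw ε δ := one_le_Pw hε hδ hδ1
  have h2d : (1 : ℝ≥0∞) ≤ 2 ^ d := one_le_pow₀ (by norm_num)
  have h8d : (1 : ℝ≥0∞) ≤ 3 * 8 ^ d := by
    have h8 : (1 : ℝ≥0∞) ≤ 8 ^ d := one_le_pow₀ (by norm_num)
    calc (1 : ℝ≥0∞) = 1 * 1 := by norm_num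
      _ ≤ 3 * 8 ^ d := by
          gcongr
          norm_num
  rcases hb with hb | ⟨rfl, hd, rfl, hB, hB1, hbm⟩ | ⟨hp1, hpd, hd, hB, hB1, hbm, hS⟩
  · have e0 := allB_expo hb
    refine (hbd T δ k hT hδ hδ1 hb).mono ?_ subset_rfl
    have e1 : (d : ℝ) + 1 - p = 0 := by rw [e0]; ring
    rw [e1, ENNReal.rpow_zero, ENNReal.rpow_zero]
    gcongr
    show c2 d ≤ c2 d + c1 d + c3 d
    rw [add_assoc]
    exact le_self_add
  · obtain ⟨hK0, hK1⟩ := hK d hd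
    have hqd := hq d hd
    have hd2 : (2 : ℝ) ≤ d := by exact_mod_cast hd
    have hqle : q d ≤ d + 1 := by
      rcases hqd.2 with h2 | ⟨_, h2⟩ <;> linarith
    have h1 := hK1 δ hδ hδ1 B b hB hB1 hbm (win T k) _ (measurableSet_win hT k) (win_subset T k)
    have h2 := h1.radius (R := 3 * δ) (by linarith) (by linarith) (by rw [one_mul]; exact hqd.1.le) hbm
    refine h2.mono ?_ subset_rfl
    rw [ENNReal.ofReal_mul hK0.le, mu_rpow hδ (by linarith : 0 ≤ (d : ℝ) + 1 - q d)]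
    calc (2 ^ d : ℝ≥0∞) ^ (1 * q d) * (ENNReal.ofReal (K d) *
          ENNReal.ofReal (δ ^ (-((d : ℝ) + 1 - q d))))
        ≤ (2 ^ d : ℝ≥0∞) ^ ((d : ℝ) + 1) * (ENNReal.ofReal (K d) *
          ENNReal.ofReal (δ ^ (-((d : ℝ) + 1 - q d)))) := by
          apply mul_le_mul_left
          apply ENNReal.rpow_le_rpow_of_exponent_le h2d
          linarith
      _ = c3 d * 1 * 1 * ENNReal.ofReal (δ ^ (-((d : ℝ) + 1 - q d))) := by
          rw [hc3]; ring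
      _ ≤ (c2 d + c1 d + c3 d) * ((1 : ℝ≥0) : ℝ≥0∞) * Pw ε δ ^ d *
          ENNReal.ofReal (δ ^ (-((d : ℝ) + 1 - q d))) := by
          gcongr
          · exact le_add_self
          · simp
          · exact one_le_pow₀ hPw1
  · have hl : LMb δ T 1 p (c ε d * M * Pw ε δ * mu δ ^ ((d : ℝ) + 1 - p)) B b := by
      intro f hf hfT
      rw [ENNReal.rpow_one, one_mul]
      refine (hS ε hε δ hδ hδ1 f hf hfT).trans (le_of_eq ?_)
      rw [mu_rpow hδ (by linarith)]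
      unfold Pw
      have e3 : ENNReal.ofReal (δ ^ (-((d : ℝ) + 1 - p) - ε)) =
          ENNReal.ofReal (δ ^ (-ε)) * ENNReal.ofReal (δ ^ (-((d : ℝ) + 1 - p))) := by
        rw [← ENNReal.ofReal_mul (by positivity), ← Real.rpow_add hδ]
        congr 2
        ring
      rw [e3]
      ring
    refine (wb_of_lmb hδ hδ1 hT zero_le_one (by linarith) (by linarith) hB hB1 hbm hl k).mono ?_
      subset_rfl
    calc (2 ^ d : ℝ≥0∞) ^ ((1 : ℝ) * p) * ((3 * 8 ^ d) ^ ((1 : ℝ) * p) *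
          (c ε d * M * Pw ε δ * mu δ ^ ((d : ℝ) + 1 - p)))
        ≤ (2 ^ d : ℝ≥0∞) ^ ((d : ℝ) + 1) * ((3 * 8 ^ d) ^ ((d : ℝ) + 1) *
          (c ε d * M * Pw ε δ ^ d * mu δ ^ ((d : ℝ) + 1 - p))) := by
          have i1 : (2 ^ d : ℝ≥0∞) ^ ((1 : ℝ) * p) ≤ (2 ^ d : ℝ≥0∞) ^ ((d : ℝ) + 1) :=
            ENNReal.rpow_le_rpow_of_exponent_le h2d (by linarith)
          have i2 : (3 * 8 ^ d : ℝ≥0∞) ^ ((1 : ℝ) * p) ≤ (3 * 8 ^ d : ℝ≥0∞) ^ ((d : ℝ) + 1) :=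
            ENNReal.rpow_le_rpow_of_exponent_le h8d (by linarith)
          have i3 : Pw ε δ ≤ Pw ε δ ^ d := le_self_pow₀ hPw1 (by omega)
          gcongr
      _ = c1 d * M * Pw ε δ ^ d * mu δ ^ ((d : ℝ) + 1 - p) := by rw [hc1]; ring
      _ ≤ (c2 d + c1 d + c3 d) * M * Pw ε δ ^ d * mu δ ^ ((d : ℝ) + 1 - p) := by
          gcongr
          calc c1 d ≤ c2 d + c1 d := le_add_self
            _ ≤ _ := le_self_add

end Pool.Agent.W2helper36.KT
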